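import Pool.Agent.H69.KZ.Stm

namespace KZ
namespace Gro

open Finset

theorem desc_ineq (n s : ℕ) (hs : s ≤ n) (k : ℕ) :
    n ^ k * s.descFactorial k ≤ s ^ k * n.descFactorial k := by
  induction k with
  | zero => simp
  | succ k ih =>
    rw [Nat.descFactorial_succ, Nat.descFactorial_succ, pow_succ, pow_succ]
    have h1 : n * (s - k) ≤ s * (n - k) := by
      rcases le_total s k with h | h
      · rw [Nat.sub_eq_zero_of_le h]; simp
      · obtain ⟨a, rfl⟩ := Nat.exists_eq_add_of_le h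
        obtain ⟨b, rfl⟩ := Nat.exists_eq_add_of_le hs
        have e1 : k + a - k = a := by omega
        have e2 : k + a + b - k = a + b := by omega
        rw [e1, e2]
        nlinarith
    calc n ^ k * n * ((s - k) * s.descFactorial k)
        = (n ^ k * s.descFactorial k) * (n * (s - k)) := by ring
      _ ≤ (s ^ k * n.descFactorial k) * (s * (n - k)) := Nat.mul_le_mul ih h1
      _ = s ^ k * s * ((n - k) * n.descFactorial k) := by ring

theorem choose_ineq (n s k : ℕ) (hs : s ≤ n) :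
    n ^ k * s.choose k ≤ s ^ k * n.choose k := by
  have h := desc_ineq n s hs k
  rw [Nat.descFactorial_eq_factorial_mul_choose, Nat.descFactorial_eq_factorial_mul_choose] at h
  have h2 : k.factorial * (n ^ k * s.choose k) ≤ k.factorial * (s ^ k * n.choose k) := by
    calc k.factorial * (n ^ k * s.choose k) = n ^ k * (k.factorial * s.choose k) := by ring
      _ ≤ s ^ k * (k.factorial * n.choose k) := h
      _ = k.factorial * (s ^ k * n.choose k) := by ring
  exact Nat.le_of_mul_le_mul_left h2 (Nat.factorial_pos k)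

/-- the analytic estimate -/
theorem analytic (n k t : ℕ) (hk : 2 ≤ k) (hn : Real.exp 5000000 * k * Real.log n ≤ n)
    (hn2 : 2 ≤ n) (ht : (t : ℝ) ≤ 36 * Real.log n + 1) :
    k * (t + 1) ≤ n ∧ 20 * n * (k * (t + 1)) ^ k ≤ n ^ k := by
  set ℓ := Real.log n with hℓ
  have hn0 : (0 : ℝ) < n := by positivity
  have hk2 : (2 : ℝ) ≤ k := by exact_mod_cast hk
  have hexp : Real.exp ℓ = n := by rw [hℓ, Real.exp_log hn0]
  have hlog2 : (1 / 2 : ℝ) ≤ ℓ := by
    have h1 : Real.log 2 ≤ ℓ := Real.log_le_log (by norm_num) (by exact_mod_cast hn2)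
    have := Real.log_two_gt_d9
    linarith
  have hE : (0 : ℝ) < Real.exp 5000000 := Real.exp_pos _
  have hnE : Real.exp 5000000 ≤ n := by
    have : Real.exp 5000000 * (2 * (1 / 2)) ≤ Real.exp 5000000 * (k * ℓ) := by
      apply mul_le_mul_of_nonneg_left _ hE.le
      nlinarith
    linarith
  have hℓ5 : 5000000 ≤ ℓ := by
    rw [← hexp] at hnE
    exact Real.exp_le_exp.mp hnE
  have hs1 : (k : ℝ) * (t + 1) ≤ 40 * k * ℓ := by
    have : (t : ℝ) + 1 ≤ 40 * ℓ := by linarith
    nlinarith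
  have hE6 : (40 : ℝ) * Real.exp 6 ≤ Real.exp 5000000 := by
    have h1 : (40 : ℝ) ≤ Real.exp 40 := by
      have := Real.add_one_le_exp (40 : ℝ)
      linarith
    calc (40 : ℝ) * Real.exp 6 ≤ Real.exp 40 * Real.exp 6 := by
          apply mul_le_mul_of_nonneg_right h1 (Real.exp_pos _).le
      _ = Real.exp 46 := by rw [← Real.exp_add]; norm_num
      _ ≤ Real.exp 5000000 := Real.exp_le_exp.mpr (by norm_num)
  have hsn : Real.exp 6 * ((k : ℝ) * (t + 1)) ≤ n := by
    have hkl : 0 ≤ (k : ℝ) * ℓ := by positivity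
    calc Real.exp 6 * ((k : ℝ) * (t + 1)) ≤ Real.exp 6 * (40 * k * ℓ) :=
          mul_le_mul_of_nonneg_left hs1 (Real.exp_pos _).le
      _ = (40 * Real.exp 6) * (k * ℓ) := by ring
      _ ≤ Real.exp 5000000 * (k * ℓ) := mul_le_mul_of_nonneg_right hE6 hkl
      _ ≤ n := by linarith
  have hs0 : (0 : ℝ) < (k : ℝ) * (t + 1) := by positivity
  constructor
  · have h1 : (1 : ℝ) ≤ Real.exp 6 := Real.one_le_exp (by norm_num)
    have h2 : (k : ℝ) * (t + 1) ≤ n := by nlinarith
    exact_mod_cast h2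
  · have key : 20 * (n : ℝ) * ((k : ℝ) * (t + 1)) ^ k ≤ (n : ℝ) ^ k := by
      rcases le_total ℓ (k : ℝ) with hc | hc
      · -- k ≥ log n
        have h1 : 20 * (n : ℝ) ≤ (Real.exp 6) ^ k := by
          have h2 : Real.exp 6 ^ k = Real.exp (6 * k) := by
            rw [← Real.exp_nat_mul]; ring_nf
          rw [h2]
          have h3 : Real.exp (6 * ℓ) ≤ Real.exp (6 * k) := Real.exp_le_exp.mpr (by linarith)
          have h4 : Real.exp (6 * ℓ) = Real.exp (5 * ℓ) * n := by
            rw [← hexp, ← Real.exp_add]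
            congr 1
            ring
          have h5 : (20 : ℝ) ≤ Real.exp (5 * ℓ) := by
            have := Real.add_one_le_exp (5 * ℓ)
            linarith
          have h6 : 20 * (n : ℝ) ≤ Real.exp (5 * ℓ) * n :=
            mul_le_mul_of_nonneg_right h5 hn0.le
          linarith
        calc 20 * (n : ℝ) * ((k : ℝ) * (t + 1)) ^ k
            ≤ (Real.exp 6) ^ k * ((k : ℝ) * (t + 1)) ^ k :=
              mul_le_mul_of_nonneg_right h1 (by positivity)
          _ = (Real.exp 6 * ((k : ℝ) * (t + 1))) ^ k := (mul_pow _ _ _).symm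
          _ ≤ (n : ℝ) ^ k := pow_le_pow_left₀ (by positivity) hsn k
      · -- k ≤ log n
        have hA : (40 * ℓ ^ 2) ^ 2 * (20 * (n : ℝ)) ≤ (n : ℝ) ^ 2 := by
          have h1 : (32000 : ℝ) * ℓ ^ 4 ≤ n := by
            have h2 := Real.pow_div_factorial_le_exp ℓ (by linarith) 5
            rw [hexp] at h2
            have h3 : ((Nat.factorial 5 : ℕ) : ℝ) = 120 := by norm_num [Nat.factorial]
            rw [h3] at h2
            have h4 : (32000 : ℝ) * ℓ ^ 4 ≤ ℓ ^ 5 / 120 := by
              have h5 : (0 : ℝ) ≤ ℓ ^ 4 := by positivity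
              have h6 : ℓ ^ 5 / 120 = (ℓ / 120) * ℓ ^ 4 := by ring
              rw [h6]
              apply mul_le_mul_of_nonneg_right _ h5
              linarith
            linarith
          calc (40 * ℓ ^ 2) ^ 2 * (20 * (n : ℝ)) = (32000 * ℓ ^ 4) * (n : ℝ) := by ring
            _ ≤ (n : ℝ) * n := mul_le_mul_of_nonneg_right h1 hn0.le
            _ = (n : ℝ) ^ 2 := by ring
        have hsl : (k : ℝ) * (t + 1) ≤ 40 * ℓ ^ 2 := by
          have : 40 * (k : ℝ) * ℓ ≤ 40 * ℓ * ℓ := by
            apply mul_le_mul_of_nonneg_right _ (by linarith)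
            linarith
          nlinarith
        have h7 : 20 * (n : ℝ) * ((k : ℝ) * (t + 1)) ^ 2 ≤ (n : ℝ) ^ 2 := by
          calc 20 * (n : ℝ) * ((k : ℝ) * (t + 1)) ^ 2 ≤ 20 * (n : ℝ) * (40 * ℓ ^ 2) ^ 2 := by
                apply mul_le_mul_of_nonneg_left _ (by positivity)
                exact pow_le_pow_left₀ hs0.le hsl 2
            _ = (40 * ℓ ^ 2) ^ 2 * (20 * (n : ℝ)) := by ring
            _ ≤ _ := hA
        have h1 : (1 : ℝ) ≤ Real.exp 6 := Real.one_le_exp (by norm_num)
        have h8 : (k : ℝ) * (t + 1) ≤ n := by nlinarith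
        obtain ⟨k', rfl⟩ := Nat.exists_eq_add_of_le hk
        calc 20 * (n : ℝ) * (((2 + k' : ℕ) : ℝ) * (t + 1)) ^ (2 + k')
            = (20 * (n : ℝ) * (((2 + k' : ℕ) : ℝ) * (t + 1)) ^ 2) *
                (((2 + k' : ℕ) : ℝ) * (t + 1)) ^ k' := by rw [pow_add]; ring
          _ ≤ (n : ℝ) ^ 2 * (n : ℝ) ^ k' := by
              apply mul_le_mul h7 (pow_le_pow_left₀ hs0.le h8 k') (by positivity) (by positivity)
          _ = (n : ℝ) ^ (2 + k') := by rw [pow_add]
    exact_mod_cast key

theorem growth (hLGR : S_LGR) (n k t : ℕ) (hk : 2 ≤ k) (hn : Real.exp 5000000 * k * Real.log n ≤ n)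
    (hn2 : 2 ≤ n) (ht : (t : ℝ) ≤ 36 * Real.log n + 1) :
    20 * n * L n k t ≤ L n k (t + 1) := by
  obtain ⟨hs, hA⟩ := analytic n k t hk hn hn2 ht
  set s := k * (t + 1) with hsdef
  have hs0 : 0 < s := by positivity
  have h1 := choose_ineq n s k hs
  have hks : k ≤ s := by
    rw [hsdef]; nlinarith
  have hc : 0 < s.choose k := Nat.choose_pos hks
  have h2 : 20 * n * s.choose k ≤ n.choose k := by
    have : s ^ k * (20 * n * s.choose k) ≤ s ^ k * n.choose k := by
      calc s ^ k * (20 * n * s.choose k) = (20 * n * s ^ k) * s.choose k := by ring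
        _ ≤ n ^ k * s.choose k := Nat.mul_le_mul_right _ hA
        _ ≤ _ := h1
    exact Nat.le_of_mul_le_mul_left this (by positivity)
  have h3 := hLGR n k t hs
  have h4 : (20 * n * L n k t) * s.choose k ≤ L n k (t + 1) * s.choose k := by
    calc (20 * n * L n k t) * s.choose k = L n k t * (20 * n * s.choose k) := by ring
      _ ≤ L n k t * n.choose k := Nat.mul_le_mul_left _ h2
      _ ≤ _ := h3
  exact Nat.le_of_mul_le_mul_right h4 hc

/-- `∑ n^j L(d-j)` -/
def A (n k : ℕ) : ℕ → ℝ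
  | 0 => L n k 0
  | d + 1 => L n k (d + 1) + n * A n k d

theorem A_eq (n k d : ℕ) :
    A n k d = ∑ j ∈ range (d + 1), (n : ℝ) ^ j * (L n k (d - j) : ℝ) := by
  induction d with
  | zero => simp [A]
  | succ d ih =>
    rw [A, ih, sum_range_succ' (fun j => (n : ℝ) ^ j * (L n k (d + 1 - j) : ℝ)), mul_sum]
    rw [add_comm]
    congr 1
    · apply sum_congr rfl
      intro j _
      have : d + 1 - (j + 1) = d - j := by omega
      rw [this]
      ring
    · simp

theorem A_le (n k D : ℕ) (hg : ∀ t ≤ D, 20 * n * L n k t ≤ L n k (t + 1)) :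
    ∀ d ≤ D + 1, A n k d ≤ 20 / 19 * L n k d := by
  intro d
  induction d with
  | zero =>
    intro _
    have : (0 : ℝ) ≤ L n k 0 := by positivity
    simp only [A]
    linarith
  | succ d ih =>
    intro hd
    have h1 := ih (by omega)
    have h2 : (20 : ℝ) * n * L n k d ≤ L n k (d + 1) := by exact_mod_cast hg d (by omega)
    simp only [A]
    have h3 : (n : ℝ) * A n k d ≤ n * (20 / 19 * L n k d) :=
      mul_le_mul_of_nonneg_left h1 (by positivity)
    linarith

theorem h_bd (n k d : ℕ) : |(h n k d : ℝ) - L n k d| ≤ A n k d - L n k d := by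
  rw [A_eq]
  unfold h
  push_cast
  rw [sum_range_succ', sum_range_succ' (fun j => (n : ℝ) ^ j * (L n k (d - j) : ℝ))]
  simp only [pow_zero, Nat.choose_zero_right, Nat.cast_one, one_mul, Nat.sub_zero,
    add_sub_cancel_right]
  refine (abs_sum_le_sum_abs _ _).trans ?_
  apply sum_le_sum
  intro j _
  rw [abs_mul, abs_mul, abs_pow, abs_neg, abs_one, one_pow, one_mul, Nat.abs_cast, Nat.abs_cast]
  apply mul_le_mul_of_nonneg_right _ (by positivity)
  exact_mod_cast Nat.choose_le_pow n (j + 1)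

end Gro

open Gro

theorem GRO_proved (hLGR : S_LGR) : S_GRO := by
  refine ⟨Real.exp 5000000, Real.exp_pos _, ?_⟩
  intro n k hk hkn hn d hd
  have hn2 : 2 ≤ n := by omega
  have hg : ∀ t ≤ d, 20 * n * L n k t ≤ L n k (t + 1) := by
    intro t ht
    apply growth hLGR n k t hk hn hn2
    have : (t : ℝ) ≤ d := by exact_mod_cast ht
    linarith
  have h1 := h_bd n k d
  have h2 := h_bd n k (d + 1)
  have h3 := A_le n k d hg d (by omega)
  have h4 := A_le n k d hg (d + 1) le_rfl
  have h5 : (20 : ℝ) * n * L n k d ≤ L n k (d + 1) := by exact_mod_cast hg d le_rfl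
  have h6 : (1 : ℝ) ≤ n := by exact_mod_cast (by omega : 1 ≤ n)
  have h7 : (0 : ℝ) ≤ L n k d := by positivity
  have h8 : (20 : ℝ) * L n k d ≤ 20 * n * L n k d := by nlinarith
  rw [abs_le] at h1 h2
  have : (h n k d : ℝ) ≤ h n k (d + 1) := by linarith [h1.2, h2.1]
  exact_mod_cast this

end KZ
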