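import Pool.Agent.H69.KZ.Stm

namespace KZ

theorem c_succ (r n : ℕ) (m : ℤ) : c r (n + 1) m = ∑ j ∈ Finset.range r, c r n (m - (j : ℤ)) := rfl

theorem IDN_proved : S_IDN := by
  intro r n
  induction n with
  | zero =>
    intro m
    simp only [c_succ, c, Nat.cast_zero, zero_add, one_mul]
    rw [Finset.mul_sum]
    apply Finset.sum_congr rfl
    intro j _
    by_cases h : m - (j : ℤ) = 0
    · have : m = (j : ℤ) := by omega
      subst this
      simp
    · simp [h]
  | succ n ih =>
    intro m
    rw [c_succ r (n + 1) m, Finset.mul_sum]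
    have h1 : ∀ j ∈ Finset.range r, (m : ℝ) * c r (n + 1) (m - (j : ℤ)) =
        ((n : ℝ) + 1) * ∑ i ∈ Finset.range r, (i : ℝ) * c r n (m - (j : ℤ) - (i : ℤ)) +
          (j : ℝ) * c r (n + 1) (m - (j : ℤ)) := by
      intro j _
      have := ih (m - (j : ℤ))
      push_cast at this
      rw [← this]
      ring
    rw [Finset.sum_congr rfl h1, Finset.sum_add_distrib, ← Finset.mul_sum, Finset.sum_comm]
    have h2 : ∀ i ∈ Finset.range r, ∑ j ∈ Finset.range r, (i : ℝ) * c r n (m - (j : ℤ) - (i : ℤ)) =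
        (i : ℝ) * c r (n + 1) (m - (i : ℤ)) := by
      intro i _
      rw [c_succ, Finset.mul_sum]
      apply Finset.sum_congr rfl
      intro j _
      have : m - (j : ℤ) - (i : ℤ) = m - (i : ℤ) - (j : ℤ) := by ring
      rw [this]
    rw [Finset.sum_congr rfl h2]
    push_cast
    ring

end KZ
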