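import Pool.Agent.H69.KZ.Stm

namespace KZ
namespace Kat

open Finset

/-- coefficients of `(1-X)^(-n)`, extended by zero to negative indices -/
noncomputable def g (n : ℕ) (m : ℤ) : ℝ := if m < 0 then 0 else (n.multichoose m.toNat : ℝ)

theorem g_neg (n : ℕ) (m : ℤ) (hm : m < 0) : g n m = 0 := by simp [g, hm]

theorem g_step (n : ℕ) (m : ℤ) : g (n + 1) m - g (n + 1) (m - 1) = g n m := by
  rcases lt_trichotomy m 0 with hm | hm | hm
  · rw [g_neg _ _ hm, g_neg _ _ hm, g_neg _ _ (by omega)]; simp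
  · subst hm
    rw [g_neg (n + 1) (0 - 1) (by omega)]
    simp [g]
  · obtain ⟨a, rfl⟩ : ∃ a : ℕ, m = (a : ℤ) + 1 := ⟨(m - 1).toNat, by omega⟩
    have h1 : ((a : ℤ) + 1 - 1) = (a : ℤ) := by ring
    have h2 : ((a : ℤ) + 1).toNat = a + 1 := by omega
    have h3 : ¬ ((a : ℤ) + 1 < 0) := by omega
    have h4 : ¬ ((a : ℤ) < 0) := by omega
    unfold g
    rw [h1, if_neg h3, if_neg h4, if_neg h3, h2, Int.toNat_natCast, Nat.multichoose_succ_succ]
    push_cast
    ring

theorem g_tel (n : ℕ) (m : ℤ) (r : ℕ) :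
    ∑ j ∈ range r, g n (m - (j : ℤ)) = g (n + 1) m - g (n + 1) (m - (r : ℤ)) := by
  induction r with
  | zero => simp
  | succ r ih =>
    rw [sum_range_succ, ih, ← g_step n (m - (r : ℤ))]
    have : m - ((r + 1 : ℕ) : ℤ) = m - (r : ℤ) - 1 := by push_cast; ring
    rw [this]
    ring

theorem choose_sum (n : ℕ) (f : ℕ → ℝ) :
    ∑ i ∈ range (n + 2), (-1 : ℝ) ^ i * ((n + 1).choose i : ℝ) * f i =
      ∑ i ∈ range (n + 1), (-1 : ℝ) ^ i * (n.choose i : ℝ) * (f i - f (i + 1)) := by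
  rw [sum_range_succ']
  have h1 : ∑ i ∈ range (n + 1), (-1 : ℝ) ^ i * (n.choose i : ℝ) * f i =
      ∑ i ∈ range (n + 1), (-1 : ℝ) ^ (i + 1) * (n.choose (i + 1) : ℝ) * f (i + 1) + f 0 := by
    have h2 : ∑ i ∈ range (n + 2), (-1 : ℝ) ^ i * (n.choose i : ℝ) * f i =
        ∑ i ∈ range (n + 1), (-1 : ℝ) ^ i * (n.choose i : ℝ) * f i := by
      rw [sum_range_succ]; simp
    rw [← h2, sum_range_succ']
    simp
  have h3 : ∑ i ∈ range (n + 1), (-1 : ℝ) ^ i * (n.choose i : ℝ) * (f i - f (i + 1)) =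
      ∑ i ∈ range (n + 1), (-1 : ℝ) ^ i * (n.choose i : ℝ) * f i -
        ∑ i ∈ range (n + 1), (-1 : ℝ) ^ i * (n.choose i : ℝ) * f (i + 1) := by
    rw [← sum_sub_distrib]
    apply sum_congr rfl
    intro i _; ring
  rw [h3, h1]
  have h4 : ∑ i ∈ range (n + 1), (-1 : ℝ) ^ (i + 1) * ((n + 1).choose (i + 1) : ℝ) * f (i + 1) =
      ∑ i ∈ range (n + 1), (-1 : ℝ) ^ (i + 1) * (n.choose (i + 1) : ℝ) * f (i + 1) -
        ∑ i ∈ range (n + 1), (-1 : ℝ) ^ i * (n.choose i : ℝ) * f (i + 1) := by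
    rw [← sum_sub_distrib]
    apply sum_congr rfl
    intro i _
    rw [Nat.choose_succ_succ]
    push_cast
    ring
  rw [h4]
  simp
  ring

/-- inclusion-exclusion -/
theorem c_eq (r n : ℕ) (m : ℤ) :
    c r n m = ∑ i ∈ range (n + 1), (-1 : ℝ) ^ i * (n.choose i : ℝ) * g n (m - (i : ℤ) * r) := by
  induction n generalizing m with
  | zero =>
    simp only [c, zero_add, sum_range_one, pow_zero, one_mul, Nat.choose_self, Nat.cast_one,
      Nat.cast_zero, zero_mul, sub_zero]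
    unfold g
    rcases lt_trichotomy m 0 with hm | hm | hm
    · rw [if_neg (by omega), if_pos hm]
    · subst hm; simp
    · rw [if_neg (by omega), if_neg (by omega)]
      obtain ⟨a, rfl⟩ : ∃ a : ℕ, m = (a : ℤ) + 1 := ⟨(m - 1).toNat, by omega⟩
      have h2 : ((a : ℤ) + 1).toNat = a + 1 := by omega
      rw [h2]
      simp
  | succ n ih =>
    have h0 : c r (n + 1) m = ∑ j ∈ range r, c r n (m - (j : ℤ)) := rfl
    rw [h0, choose_sum n (fun i => g (n + 1) (m - (i : ℤ) * r))]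
    simp_rw [ih]
    rw [sum_comm]
    apply sum_congr rfl
    intro i _
    rw [← mul_sum]
    congr 1
    have h1 := g_tel n (m - (i : ℤ) * r) r
    have h2 : m - (i : ℤ) * r - (r : ℤ) = m - ((i + 1 : ℕ) : ℤ) * r := by push_cast; ring
    rw [h2] at h1
    rw [← h1]
    apply sum_congr rfl
    intro j _
    congr 1
    ring

/-- `c` counts vectors -/
theorem card_eq (r n : ℕ) (m : ℤ) :
    (((univ : Finset (Fin n → Fin r)).filter (fun x => ∑ i, ((x i : ℕ) : ℤ) = m)).card : ℝ) =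
      c r n m := by
  induction n generalizing m with
  | zero =>
    simp only [c, univ_eq_empty, sum_empty]
    by_cases h : m = 0
    · subst h; simp
    · simp [h, Ne.symm h, eq_comm]
  | succ n ih =>
    have h0 : c r (n + 1) m = ∑ j ∈ range r, c r n (m - (j : ℤ)) := rfl
    rw [h0, Finset.sum_range]
    simp_rw [← ih]
    rw [← Nat.cast_sum]
    congr 1
    rw [← Finset.card_sigma]
    symm
    refine Finset.card_bij' (fun p _ => Fin.cons p.1 p.2) (fun x _ => ⟨x 0, Fin.tail x⟩) ?_ ?_ ?_ ?_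
    · rintro ⟨a, x⟩ hx
      simp only [mem_sigma, mem_univ, mem_filter, true_and] at hx ⊢
      rw [Fin.sum_univ_succ]
      simp only [Fin.cons_zero, Fin.cons_succ]
      omega
    · intro x hx
      simp only [mem_sigma, mem_univ, mem_filter, true_and] at hx ⊢
      rw [Fin.sum_univ_succ] at hx
      simp only [Fin.tail]
      omega
    · rintro ⟨a, x⟩ _
      simp
    · intro x _
      simp

theorem L_eq (n k t : ℕ) : (L n k t : ℝ) = c (t + 1) n ((k : ℤ) * t) := by
  rw [← card_eq]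
  unfold L
  congr 2
  apply Finset.filter_congr
  intro x _
  constructor
  · intro h
    exact_mod_cast h
  · intro h
    exact_mod_cast h

end Kat

open Finset Kat

theorem KAT_proved : S_KAT := by
  intro n k d hn hk
  have h1 : (h n k d : ℝ) = ∑ j ∈ range (d + 1), (-1 : ℝ) ^ j * (n.choose j : ℝ) *
      ∑ i ∈ range k, (-1 : ℝ) ^ i * (n.choose i : ℝ) *
        g n ((((k - i : ℕ) : ℤ) * ((d : ℤ) + 1) - (k : ℤ)) - (j : ℤ) * ((k - i : ℕ) : ℤ)) := by
    unfold h
    push_cast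
    apply sum_congr rfl
    intro j hj
    have hj' : j ≤ d := by simpa [Nat.lt_succ_iff] using hj
    congr 1
    rw [L_eq, c_eq]
    -- both sides are equal to the sum over `range (n + 1 + k)`
    have e1 : ∀ i : ℕ, i < k → ((k : ℤ) * ((d - j : ℕ) : ℤ) - (i : ℤ) * ((d - j + 1 : ℕ) : ℤ)) =
        (((k - i : ℕ) : ℤ) * ((d : ℤ) + 1) - (k : ℤ)) - (j : ℤ) * ((k - i : ℕ) : ℤ) := by
      intro i hi
      rw [Nat.cast_sub hi.le]
      push_cast
      rw [Nat.cast_sub hj']
      ring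
    have A : ∑ i ∈ range (n + 1), (-1 : ℝ) ^ i * (n.choose i : ℝ) *
        g n ((k : ℤ) * ((d - j : ℕ) : ℤ) - (i : ℤ) * ((d - j + 1 : ℕ) : ℤ)) =
        ∑ i ∈ range (n + 1 + k), (-1 : ℝ) ^ i * (n.choose i : ℝ) *
        g n ((k : ℤ) * ((d - j : ℕ) : ℤ) - (i : ℤ) * ((d - j + 1 : ℕ) : ℤ)) := by
      apply sum_subset
      · intro x hx
        simp only [mem_range] at hx ⊢
        omega
      · intro x _ hx2
        simp only [mem_range, not_lt] at hx2
        rw [Nat.choose_eq_zero_of_lt (by omega)]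
        simp
    have B : ∑ i ∈ range k, (-1 : ℝ) ^ i * (n.choose i : ℝ) *
        g n ((((k - i : ℕ) : ℤ) * ((d : ℤ) + 1) - (k : ℤ)) - (j : ℤ) * ((k - i : ℕ) : ℤ)) =
        ∑ i ∈ range (n + 1 + k), (-1 : ℝ) ^ i * (n.choose i : ℝ) *
        g n ((k : ℤ) * ((d - j : ℕ) : ℤ) - (i : ℤ) * ((d - j + 1 : ℕ) : ℤ)) := by
      have B1 : ∑ i ∈ range k, (-1 : ℝ) ^ i * (n.choose i : ℝ) *
        g n ((((k - i : ℕ) : ℤ) * ((d : ℤ) + 1) - (k : ℤ)) - (j : ℤ) * ((k - i : ℕ) : ℤ)) =
        ∑ i ∈ range k, (-1 : ℝ) ^ i * (n.choose i : ℝ) *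
        g n ((k : ℤ) * ((d - j : ℕ) : ℤ) - (i : ℤ) * ((d - j + 1 : ℕ) : ℤ)) := by
        apply sum_congr rfl
        intro i hi
        rw [e1 i (by simpa using hi)]
      rw [B1]
      apply sum_subset
      · intro x hx
        simp only [mem_range] at hx ⊢
        omega
      · intro x _ hx2
        simp only [mem_range, not_lt] at hx2
        rw [g_neg]
        · simp
        · have q1 : (k : ℤ) ≤ (x : ℤ) := by exact_mod_cast hx2
          have q2 : (0 : ℤ) ≤ ((d - j : ℕ) : ℤ) := by positivity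
          have q3 : (1 : ℤ) ≤ (k : ℤ) := by exact_mod_cast hk
          push_cast
          nlinarith
    exact A.trans B.symm
  rw [h1]
  simp_rw [mul_sum]
  rw [sum_comm]
  apply sum_congr rfl
  intro i hi
  have hik : i < k := by simpa using hi
  have C1 : ∀ (F : ℕ → ℝ), (∀ j, n < j → F j = 0) → (∀ j, d < j → F j = 0) →
      ∑ j ∈ range (d + 1), F j = ∑ j ∈ range (n + 1), F j := by
    intro F hF1 hF2
    have a1 : ∑ j ∈ range (d + 1), F j = ∑ j ∈ range (d + 1 + n), F j := by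
      apply sum_subset
      · intro x hx; simp only [mem_range] at hx ⊢; omega
      · intro x _ hx
        simp only [mem_range, not_lt] at hx
        exact hF2 x (by omega)
    have a2 : ∑ j ∈ range (n + 1), F j = ∑ j ∈ range (d + 1 + n), F j := by
      apply sum_subset
      · intro x hx; simp only [mem_range] at hx ⊢; omega
      · intro x _ hx
        simp only [mem_range, not_lt] at hx
        exact hF1 x (by omega)
    rw [a1, a2]
  rw [C1]
  · rw [c_eq, mul_sum]
    apply sum_congr rfl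
    intro j _
    ring
  · intro j hj
    rw [Nat.choose_eq_zero_of_lt hj]
    simp
  · intro j hj
    rw [g_neg]
    · simp
    · rw [Nat.cast_sub hik.le]
      have q1 : (d : ℤ) + 1 ≤ (j : ℤ) := by exact_mod_cast hj
      have q2 : (1 : ℤ) ≤ (k : ℤ) - (i : ℤ) := by
        have : (i : ℤ) < (k : ℤ) := by exact_mod_cast hik
        omega
      have q3 : (1 : ℤ) ≤ (k : ℤ) := by exact_mod_cast hk
      nlinarith

end KZ
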