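import Pool.Agent.H69.KZ.Stm

namespace KZ

theorem RAT_aux (hIDN : S_IDN) (hBAS : S_BAS) (r n : ℕ) (hr : 1 ≤ r) (m : ℤ) :
    (m : ℝ) * c r (n + 1) m ≤ ((m : ℝ) - 1 + ((n : ℝ) + 1)) * c r (n + 1) (m - 1) := by
  have h1 := hIDN r n m
  have h2 := hIDN r n (m - 1)
  have h3 : c r (n + 1) (m - 1) = ∑ j ∈ Finset.range r, c r n (m - 1 - (j : ℤ)) := rfl
  have hnn : ∀ m : ℤ, 0 ≤ c r n m := (hBAS r n hr).1
  have h4 : ((m : ℝ) - 1 + ((n : ℝ) + 1)) * c r (n + 1) (m - 1) =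
      ((n : ℝ) + 1) * ∑ j ∈ Finset.range r, (((j + 1 : ℕ) : ℝ)) * c r n (m - ((j + 1 : ℕ) : ℤ)) := by
    have : ((m : ℝ) - 1 + ((n : ℝ) + 1)) * c r (n + 1) (m - 1) =
        (((m - 1 : ℤ)) : ℝ) * c r (n + 1) (m - 1) + ((n : ℝ) + 1) * c r (n + 1) (m - 1) := by
      push_cast; ring
    rw [this, h2, h3, ← mul_add, ← Finset.sum_add_distrib]
    congr 1
    apply Finset.sum_congr rfl
    intro j _
    have : m - 1 - (j : ℤ) = m - ((j + 1 : ℕ) : ℤ) := by push_cast; ring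
    rw [this]
    push_cast
    ring
  rw [h1, h4]
  apply mul_le_mul_of_nonneg_left _ (by positivity)
  have h5 : ∑ j ∈ Finset.range (r + 1), (j : ℝ) * c r n (m - (j : ℤ)) =
      ∑ j ∈ Finset.range r, (((j + 1 : ℕ) : ℝ)) * c r n (m - ((j + 1 : ℕ) : ℤ)) := by
    rw [Finset.sum_range_succ']
    simp
  rw [← h5, Finset.sum_range_succ]
  have : 0 ≤ (r : ℝ) * c r n (m - (r : ℤ)) := mul_nonneg (by positivity) (hnn _)
  linarith

theorem RAT_proved (hIDN : S_IDN) (hBAS : S_BAS) : S_RAT := by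
  intro r n M y hr hM hMn hy
  obtain ⟨n, rfl⟩ : ∃ n', n = n' + 1 := by
    cases n with
    | zero => simp at hMn; omega
    | succ n => exact ⟨n, rfl⟩
  obtain ⟨hnn, hneg, hbig, hone, hsym⟩ := hBAS r (n + 1) hr
  have hMn' : (M : ℤ) ≤ ((n + 1 : ℕ) : ℤ) * ((r : ℤ) - 1) := by
    have : (M : ℤ) ≤ (((n + 1) * (r - 1) : ℕ) : ℤ) := by exact_mod_cast hMn
    rw [Nat.cast_mul, Nat.cast_sub hr] at this
    simpa using this
  have hcM : 1 ≤ c r (n + 1) (M : ℤ) := hone _ (by omega) hMn'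
  have hcM1 : 1 ≤ c r (n + 1) ((M : ℤ) - 1) := hone _ (by omega) (by omega)
  have hMR : (1 : ℝ) ≤ M := by exact_mod_cast hM
  have hyc : y * c r (n + 1) (M : ℤ) = c r (n + 1) ((M : ℤ) - 1) := by
    rw [hy]
    field_simp
  have hy0 : 0 < y := by
    rw [hy]
    positivity
  refine ⟨hy0, ?_, ?_⟩
  · -- upper bound
    set N : ℤ := ((n + 1 : ℕ) : ℤ) * ((r : ℤ) - 1) with hN
    have s1 : c r (n + 1) (N - (M : ℤ)) = c r (n + 1) (M : ℤ) := hsym _
    have s2 : c r (n + 1) (N - ((M : ℤ) - 1)) = c r (n + 1) ((M : ℤ) - 1) := hsym _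
    have key := RAT_aux hIDN hBAS r n hr (N - ((M : ℤ) - 1))
    have e1 : N - ((M : ℤ) - 1) - 1 = N - (M : ℤ) := by ring
    rw [e1, s1, s2] at key
    have hj : (0 : ℝ) ≤ ((N - (M : ℤ) : ℤ) : ℝ) := by exact_mod_cast (by omega : (0 : ℤ) ≤ N - M)
    set J : ℝ := ((N - (M : ℤ) : ℤ) : ℝ) with hJ
    have e2 : ((N - ((M : ℤ) - 1) : ℤ) : ℝ) = J + 1 := by
      rw [hJ]; push_cast; ring
    rw [e2] at key
    rw [← hyc] at key
    have hpos : 0 < c r (n + 1) (M : ℤ) := by linarith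
    have key2 : (J + 1) * y ≤ J + 1 - 1 + ((n : ℝ) + 1) := by
      have : ((J + 1) * y) * c r (n + 1) (M : ℤ) ≤ (J + 1 - 1 + ((n : ℝ) + 1)) * c r (n + 1) (M : ℤ) := by
        linarith
      exact le_of_mul_le_mul_right this hpos
    have hn0 : (0 : ℝ) ≤ n := by positivity
    push_cast
    by_contra hcon
    push Not at hcon
    nlinarith
  · have key := RAT_aux hIDN hBAS r n hr (M : ℤ)
    rw [← hyc] at key
    have hpos : 0 < c r (n + 1) (M : ℤ) := by linarith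
    have key2 : (M : ℝ) ≤ ((M : ℝ) - 1 + ((n : ℝ) + 1)) * y := by
      have : (M : ℝ) * c r (n + 1) (M : ℤ) ≤ (((M : ℝ) - 1 + ((n : ℝ) + 1)) * y) * c r (n + 1) (M : ℤ) := by
        have := key
        push_cast at this
        linarith
      exact le_of_mul_le_mul_right this hpos
    push_cast
    nlinarith

end KZ
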